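import Mathlib
import Pool.Agent.Lib_helper15.Bishop.Defs

/-!
# The factor (module F of the Bishop operator job)
-/

set_option autoImplicit false

universe u

namespace Pool.Agent.Bishop

open MeasureTheory Set Filter
open scoped ENNReal NNReal Topology

lemma f68_csinc_zero : csinc 0 = 1 := by
  unfold csinc
  rw [dslope_same]
  simp

lemma f68_csinc_of_ne {z : ℂ} (hz : z ≠ 0) : csinc z = Complex.sin z / z := by
  unfold csinc
  rw [dslope_of_ne _ hz, slope_def_field]
  simp

lemma f68_csinc_diff : Differentiable ℂ csinc := by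
  have h : DifferentiableOn ℂ (dslope Complex.sin 0) Set.univ := by
    rw [Complex.differentiableOn_dslope (by simp)]
    exact Complex.differentiable_sin.differentiableOn
  exact differentiableOn_univ.1 h

lemma f68_norm_exp_mul_I (z : ℂ) : ‖Complex.exp (z * Complex.I)‖ = Real.exp (-z.im) := by
  rw [Complex.norm_exp]
  simp

lemma f68_norm_exp_neg_mul_I (z : ℂ) : ‖Complex.exp (-z * Complex.I)‖ = Real.exp (z.im) := by
  rw [Complex.norm_exp]
  simp

lemma f68_norm_cos_le (z : ℂ) : ‖Complex.cos z‖ ≤ Real.exp |z.im| := by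
  have h1 : Complex.cos z = (Complex.exp (z * Complex.I) + Complex.exp (-z * Complex.I)) / 2 := rfl
  rw [h1, norm_div]
  have h2 := norm_add_le (Complex.exp (z * Complex.I)) (Complex.exp (-z * Complex.I))
  rw [f68_norm_exp_mul_I, f68_norm_exp_neg_mul_I] at h2
  have h3 : Real.exp (-z.im) ≤ Real.exp |z.im| := Real.exp_le_exp.2 (neg_le_abs _)
  have h4 : Real.exp (z.im) ≤ Real.exp |z.im| := Real.exp_le_exp.2 (le_abs_self _)
  have h5 : ‖(2 : ℂ)‖ = 2 := by simp
  rw [h5, div_le_iff₀ (by norm_num)]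
  linarith

lemma f68_norm_sin_le (z : ℂ) : ‖Complex.sin z‖ ≤ Real.exp |z.im| := by
  have h1 : Complex.sin z
      = (Complex.exp (-z * Complex.I) - Complex.exp (z * Complex.I)) * Complex.I / 2 := rfl
  rw [h1, norm_div, norm_mul]
  have h2 := norm_sub_le (Complex.exp (-z * Complex.I)) (Complex.exp (z * Complex.I))
  rw [f68_norm_exp_neg_mul_I, f68_norm_exp_mul_I] at h2
  have h3 : Real.exp (-z.im) ≤ Real.exp |z.im| := Real.exp_le_exp.2 (neg_le_abs _)
  have h4 : Real.exp (z.im) ≤ Real.exp |z.im| := Real.exp_le_exp.2 (le_abs_self _)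
  have h5 : ‖(2 : ℂ)‖ = 2 := by simp
  rw [h5, div_le_iff₀ (by norm_num), Complex.norm_I, mul_one]
  linarith

lemma f68_norm_sin_le' (z : ℂ) : ‖Complex.sin z‖ ≤ Real.exp |z.im| * ‖z‖ := by
  have hconv : Convex ℝ {w : ℂ | |w.im| ≤ |z.im|} := by
    have : {w : ℂ | |w.im| ≤ |z.im|} = Complex.imLm ⁻¹' (Set.Icc (-|z.im|) |z.im|) := by
      ext w
      simp [abs_le]
    rw [this]
    exact (convex_Icc _ _).linear_preimage Complex.imLm
  have h := hconv.norm_image_sub_le_of_norm_deriv_le (𝕜 := ℂ) (f := Complex.sin)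
    (C := Real.exp |z.im|) (x := 0) (y := z)
    (fun x _ => Complex.differentiable_sin x)
    (fun x hx => by
      rw [Complex.deriv_sin]
      exact (f68_norm_cos_le x).trans (Real.exp_le_exp.2 hx))
    (by simp) (by simp)
  simpa using h

lemma f68_csinc_le (z : ℂ) : ‖csinc z‖ ≤ Real.exp |z.im| := by
  by_cases hz : z = 0
  · subst hz
    rw [f68_csinc_zero]
    simp
  · rw [f68_csinc_of_ne hz, norm_div, div_le_iff₀ (norm_pos_iff.2 hz)]
    exact f68_norm_sin_le' z

lemma f68_csinc_le' (z : ℂ) (hz : 0 < |z.re|) : ‖csinc z‖ ≤ Real.exp |z.im| / |z.re| := by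
  have hz0 : z ≠ 0 := by
    rintro rfl
    simp at hz
  rw [f68_csinc_of_ne hz0, norm_div]
  have h1 := f68_norm_sin_le z
  have h2 : |z.re| ≤ ‖z‖ := Complex.abs_re_le_norm z
  exact div_le_div₀ (Real.exp_pos _).le h1 hz h2

lemma f68_sin_sub_self_le (z : ℂ) : ‖Complex.sin z - z‖ ≤ ‖z‖ ^ 2 * Real.exp ‖z‖ := by
  have h1 : Complex.sin z
      = (Complex.exp (-z * Complex.I) - Complex.exp (z * Complex.I)) * Complex.I / 2 := rfl
  have e1 := Complex.norm_exp_sub_sum_le_norm_mul_exp (z * Complex.I) 2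
  have e2 := Complex.norm_exp_sub_sum_le_norm_mul_exp (-z * Complex.I) 2
  have n1 : ‖z * Complex.I‖ = ‖z‖ := by simp
  have n2 : ‖-z * Complex.I‖ = ‖z‖ := by simp
  rw [n1] at e1
  rw [n2] at e2
  simp only [Finset.sum_range_succ, Finset.sum_range_zero, pow_zero, pow_one, Nat.factorial_zero,
    Nat.factorial_one, Nat.cast_one, div_one, zero_add] at e1 e2
  have h2 : Complex.sin z - z = ((Complex.exp (-z * Complex.I) - (1 + -z * Complex.I))
      - (Complex.exp (z * Complex.I) - (1 + z * Complex.I))) * Complex.I / 2 := by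
    rw [h1]
    linear_combination (-z) * Complex.I_mul_I
  rw [h2, norm_div, norm_mul, Complex.norm_I, mul_one]
  have h3 := norm_sub_le (Complex.exp (-z * Complex.I) - (1 + -z * Complex.I))
    (Complex.exp (z * Complex.I) - (1 + z * Complex.I))
  have h5 : ‖(2 : ℂ)‖ = 2 := by simp
  rw [h5, div_le_iff₀ (by norm_num)]
  linarith

lemma f68_csinc_sub_one_le (z : ℂ) : ‖csinc z - 1‖ ≤ ‖z‖ * Real.exp ‖z‖ := by
  by_cases hz : z = 0
  · subst hz
    rw [f68_csinc_zero]
    simp
  · have h : csinc z - 1 = (Complex.sin z - z) / z := by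
      rw [f68_csinc_of_ne hz, sub_div, div_self hz]
    rw [h, norm_div, div_le_iff₀ (norm_pos_iff.2 hz)]
    have := f68_sin_sub_self_le z
    calc ‖Complex.sin z - z‖ ≤ ‖z‖ ^ 2 * Real.exp ‖z‖ := this
      _ = ‖z‖ * Real.exp ‖z‖ * ‖z‖ := by ring

lemma f68_mul_sub_one_le (a b : ℂ) (A B : ℝ) (ha : ‖a - 1‖ ≤ A - 1) (hb : ‖b - 1‖ ≤ B - 1) :
    ‖a * b - 1‖ ≤ A * B - 1 := by
  have hA : 1 ≤ A := by linarith [norm_nonneg (a - 1)]
  have hB : 1 ≤ B := by linarith [norm_nonneg (b - 1)]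
  have e : a * b - 1 = (a - 1) * (b - 1) + (a - 1) + (b - 1) := by ring
  rw [e]
  have h1 := norm_add₃_le (a := (a - 1) * (b - 1)) (b := a - 1) (c := b - 1)
  rw [norm_mul] at h1
  have h2 : ‖a - 1‖ * ‖b - 1‖ ≤ (A - 1) * (B - 1) :=
    mul_le_mul ha hb (norm_nonneg _) (by linarith)
  nlinarith

lemma f68_pow_sub_one_le (a : ℂ) (n : ℕ) (c : ℝ) (h : ‖a - 1‖ ≤ c) :
    ‖a ^ n - 1‖ ≤ Real.exp (n * c) - 1 := by
  induction n with
  | zero => simp
  | succ n ih =>
    have h1 : ‖a - 1‖ ≤ Real.exp c - 1 := by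
      have := Real.add_one_le_exp c
      linarith
    have h2 := f68_mul_sub_one_le (a ^ n) a (Real.exp (n * c)) (Real.exp c) ih h1
    rw [← Real.exp_add, ← pow_succ] at h2
    convert h2 using 3
    push_cast
    ring

/-- the bound for the first factor near the real axis -/
lemma f68_lin_le (σ : ℝ) (M j : ℕ) (z : ℂ) (hM : 2 ^ (j + 1) * |σ| ≤ M) (hz : |z.re| ≤ 2 ^ j) :
    ‖(1 + σ * z / M : ℂ) ^ M‖ ≤ Real.exp (σ * z.re + 2 * |σ| * |z.im|) := by
  rcases Nat.eq_zero_or_pos M with h0 | hpos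
  · subst h0
    have hσ : |σ| = 0 := by
      have : (0 : ℝ) < 2 ^ (j + 1) := by positivity
      have h := hM
      push_cast at h
      nlinarith [abs_nonneg σ]
    have hσ' : σ = 0 := abs_eq_zero.1 hσ
    simp [hσ']
  · have hM0 : (0 : ℝ) < M := by exact_mod_cast hpos
    have hre : (1 + σ * z / M : ℂ).re = 1 + σ * z.re / M := by
      have : (σ * z / M : ℂ) = ((σ / M : ℝ) : ℂ) * z := by
        push_cast
        ring
      rw [this]
      simp
      ring
    have him : (1 + σ * z / M : ℂ).im = σ * z.im / M := by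
      have : (σ * z / M : ℂ) = ((σ / M : ℝ) : ℂ) * z := by
        push_cast
        ring
      rw [this]
      simp
      ring
    have hx : |σ * z.re / M| ≤ 1 / 2 := by
      rw [abs_div, abs_mul, abs_of_pos hM0, div_le_iff₀ hM0]
      have h1 : |σ| * |z.re| ≤ |σ| * 2 ^ j := mul_le_mul_of_nonneg_left hz (abs_nonneg _)
      have h2 : 2 ^ (j + 1) * |σ| = 2 * (|σ| * 2 ^ j) := by ring
      linarith
    have hx1 : 1 / 2 ≤ 1 + σ * z.re / M := by
      have := (abs_le.1 hx).1
      linarith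
    have hn : ‖(1 + σ * z / M : ℂ)‖ ≤ (1 + σ * z.re / M) * (1 + 2 * (|σ| * |z.im| / M)) := by
      have h1 := Complex.norm_le_abs_re_add_abs_im (1 + σ * z / M : ℂ)
      rw [hre, him] at h1
      have h2 : |1 + σ * z.re / M| = 1 + σ * z.re / M := abs_of_nonneg (by linarith)
      have h3 : |σ * z.im / M| = |σ| * |z.im| / M := by
        rw [abs_div, abs_mul, abs_of_pos hM0]
      rw [h2, h3] at h1
      have h4 : 0 ≤ |σ| * |z.im| / M := by positivity
      nlinarith
    have hn2 : ‖(1 + σ * z / M : ℂ)‖ ≤ Real.exp (σ * z.re / M + 2 * (|σ| * |z.im| / M)) := by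
      refine hn.trans ?_
      rw [Real.exp_add]
      have h5 := Real.add_one_le_exp (σ * z.re / M)
      have h6 := Real.add_one_le_exp (2 * (|σ| * |z.im| / M))
      have h4 : 0 ≤ |σ| * |z.im| / M := by positivity
      exact mul_le_mul (by linarith) (by linarith) (by positivity) (Real.exp_pos _).le
    rw [norm_pow]
    calc ‖(1 + σ * z / M : ℂ)‖ ^ M ≤ Real.exp (σ * z.re / M + 2 * (|σ| * |z.im| / M)) ^ M :=
          pow_le_pow_left₀ (norm_nonneg _) hn2 M
      _ = Real.exp (σ * z.re + 2 * |σ| * |z.im|) := by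
          rw [← Real.exp_nat_mul]
          congr 1
          field_simp

/-- the bound for the first factor away from the imaginary axis -/
lemma f68_lin_le' (σ : ℝ) (M j : ℕ) (z : ℂ) (hM : 2 ^ (j + 1) * |σ| ≤ M) :
    ‖(1 + σ * z / M : ℂ) ^ M‖ ≤ (1 + |z.re| / 2 ^ (j + 1)) ^ M * Real.exp (|σ| * |z.im|) := by
  rcases Nat.eq_zero_or_pos M with h0 | hpos
  · subst h0
    simp
    positivity
  · have hM0 : (0 : ℝ) < M := by exact_mod_cast hpos
    have h2j : (0 : ℝ) < 2 ^ (j + 1) := by positivity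
    have hn : ‖(1 + σ * z / M : ℂ)‖ ≤ (1 + |z.re| / 2 ^ (j + 1)) * (1 + |σ| * |z.im| / M) := by
      have h1 := norm_add_le (1 : ℂ) (σ * z / M : ℂ)
      have h2 : ‖(σ * z / M : ℂ)‖ = |σ| * ‖z‖ / M := by
        rw [norm_div, norm_mul, Complex.norm_real, Complex.norm_natCast, Real.norm_eq_abs]
      rw [h2, norm_one] at h1
      have h3 : |σ| * ‖z‖ / M ≤ |σ| * |z.re| / M + |σ| * |z.im| / M := by
        rw [← add_div, ← mul_add]
        exact div_le_div_of_nonneg_right
          (mul_le_mul_of_nonneg_left (Complex.norm_le_abs_re_add_abs_im z) (abs_nonneg _)) hM0.le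
      have h4 : |σ| * |z.re| / M ≤ |z.re| / 2 ^ (j + 1) := by
        rw [div_le_div_iff₀ hM0 h2j]
        nlinarith [abs_nonneg z.re, abs_nonneg σ]
      have h5 : 0 ≤ |σ| * |z.im| / M := by positivity
      have h6 : 0 ≤ |z.re| / 2 ^ (j + 1) := by positivity
      nlinarith [mul_nonneg h5 h6]
    have hn2 : ‖(1 + σ * z / M : ℂ)‖ ≤
        (1 + |z.re| / 2 ^ (j + 1)) * Real.exp (|σ| * |z.im| / M) := by
      refine hn.trans (mul_le_mul_of_nonneg_left ?_ (by positivity))
      have := Real.add_one_le_exp (|σ| * |z.im| / M)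
      linarith
    rw [norm_pow]
    calc ‖(1 + σ * z / M : ℂ)‖ ^ M
        ≤ ((1 + |z.re| / 2 ^ (j + 1)) * Real.exp (|σ| * |z.im| / M)) ^ M :=
          pow_le_pow_left₀ (norm_nonneg _) hn2 M
      _ = (1 + |z.re| / 2 ^ (j + 1)) ^ M * Real.exp (|σ| * |z.im|) := by
          rw [mul_pow, ← Real.exp_nat_mul]
          congr 2
          field_simp

lemma f68_arg_im (j : ℕ) (z : ℂ) : (5 * z / 2 ^ j : ℂ).im = 5 * z.im / 2 ^ j := by
  have : (5 * z / 2 ^ j : ℂ) = ((5 / 2 ^ j : ℝ) : ℂ) * z := by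
    push_cast
    ring
  rw [this, Complex.im_ofReal_mul]
  ring

lemma f68_arg_re (j : ℕ) (z : ℂ) : (5 * z / 2 ^ j : ℂ).re = 5 * z.re / 2 ^ j := by
  have : (5 * z / 2 ^ j : ℂ) = ((5 / 2 ^ j : ℝ) : ℂ) * z := by
    push_cast
    ring
  rw [this, Complex.re_ofReal_mul]
  ring

theorem modF : ModF := by
  refine ⟨?_, ?_, ?_, ?_, ?_⟩
  · intro σ M m j
    unfold fac
    refine Differentiable.mul ?_ ?_
    · fun_prop
    · refine Differentiable.pow ?_ m
      exact f68_csinc_diff.comp (by fun_prop)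
  · intro σ M m j
    unfold fac
    simp [f68_csinc_zero]
  · intro σ M m j z hM hMm hz
    unfold fac
    rw [norm_mul]
    have h1 := f68_lin_le σ M j z hM hz
    have h2 : ‖csinc (5 * z / 2 ^ j) ^ m‖ ≤ Real.exp (5 * m / 2 ^ j * |z.im|) := by
      rw [norm_pow]
      have h3 := f68_csinc_le (5 * z / 2 ^ j)
      rw [f68_arg_im] at h3
      calc ‖csinc (5 * z / 2 ^ j)‖ ^ m ≤ Real.exp |5 * z.im / 2 ^ j| ^ m :=
            pow_le_pow_left₀ (norm_nonneg _) h3 m
        _ = Real.exp (5 * m / 2 ^ j * |z.im|) := by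
            rw [← Real.exp_nat_mul]
            congr 1
            rw [abs_div, abs_mul, abs_of_pos (by positivity : (0 : ℝ) < 2 ^ j),
              abs_of_pos (by norm_num : (0 : ℝ) < 5)]
            ring
    calc _ ≤ Real.exp (σ * z.re + 2 * |σ| * |z.im|) * Real.exp (5 * m / 2 ^ j * |z.im|) :=
          mul_le_mul h1 h2 (norm_nonneg _) (Real.exp_pos _).le
      _ = _ := by
          rw [← Real.exp_add]
          congr 1
          ring
  · intro σ M m j z hM hMm hz
    unfold fac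
    rw [norm_mul]
    have h2j : (0 : ℝ) < 2 ^ j := by positivity
    have hx0 : 0 < |z.re| := lt_of_lt_of_le h2j hz
    obtain ⟨d, rfl⟩ := Nat.exists_eq_add_of_le hMm
    have h1 := f68_lin_le' σ M j z hM
    have h3 : ‖csinc (5 * z / 2 ^ j)‖ ≤ Real.exp (5 * |z.im| / 2 ^ j) / (5 * (|z.re| / 2 ^ j)) := by
      have h3 := f68_csinc_le' (5 * z / 2 ^ j) (by
        rw [f68_arg_re, abs_div, abs_mul]
        positivity)
      rw [f68_arg_im, f68_arg_re, abs_div, abs_mul, abs_div, abs_mul,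
        abs_of_pos h2j, abs_of_pos (by norm_num : (0 : ℝ) < 5)] at h3
      rwa [mul_div_assoc 5 |z.re|] at h3
    set X : ℝ := |z.re| / 2 ^ j with hX
    have hX1 : 1 ≤ X := by
      rw [hX, le_div_iff₀ h2j]
      linarith
    have hX2 : |z.re| / 2 ^ (j + 1) = X / 2 := by
      rw [hX, pow_succ]
      field_simp
    rw [hX2] at h1
    have h4 : (1 + X / 2) ^ M ≤ (5 * X) ^ M :=
      pow_le_pow_left₀ (by linarith) (by linarith) M
    have h5 : ‖csinc (5 * z / 2 ^ j) ^ (M + d)‖
        ≤ Real.exp (5 * (M + d : ℕ) / 2 ^ j * |z.im|) / (5 * X) ^ (M + d) := by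
      rw [norm_pow]
      calc ‖csinc (5 * z / 2 ^ j)‖ ^ (M + d)
          ≤ (Real.exp (5 * |z.im| / 2 ^ j) / (5 * X)) ^ (M + d) :=
            pow_le_pow_left₀ (norm_nonneg _) h3 _
        _ = _ := by
            rw [div_pow, ← Real.exp_nat_mul]
            congr 2
            ring
    have h6 : Real.exp 1 ^ d ≤ (5 * X) ^ d := by
      refine pow_le_pow_left₀ (Real.exp_pos _).le ?_ d
      have := Real.exp_one_lt_d9
      linarith
    have h5X : 0 < 5 * X := by linarith
    have h7 : (5 * X) ^ M / (5 * X) ^ (M + d) ≤ Real.exp (-(d : ℝ)) := by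
      rw [pow_add, ← div_div, div_self (pow_pos h5X M).ne', Real.exp_neg, one_div]
      refine inv_anti₀ (Real.exp_pos _) ?_
      rw [← Real.exp_nat_mul, mul_one] at h6
      exact h6
    have h8 : |σ| * |z.im| ≤ 2 * |σ| * |z.im| := by nlinarith [mul_nonneg (abs_nonneg σ) (abs_nonneg z.im)]
    calc _ ≤ ((5 * X) ^ M * Real.exp (2 * |σ| * |z.im|))
          * (Real.exp (5 * (M + d : ℕ) / 2 ^ j * |z.im|) / (5 * X) ^ (M + d)) := by
          refine mul_le_mul (h1.trans ?_) h5 (norm_nonneg _) (by positivity)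
          exact mul_le_mul h4 (Real.exp_le_exp.2 h8) (Real.exp_pos _).le (by positivity)
      _ = ((5 * X) ^ M / (5 * X) ^ (M + d)) *
          (Real.exp (2 * |σ| * |z.im|) * Real.exp (5 * (M + d : ℕ) / 2 ^ j * |z.im|)) := by ring
      _ ≤ Real.exp (-(d : ℝ)) *
          (Real.exp (2 * |σ| * |z.im|) * Real.exp (5 * (M + d : ℕ) / 2 ^ j * |z.im|)) :=
          mul_le_mul_of_nonneg_right h7 (by positivity)
      _ = _ := by
          rw [← Real.exp_add, ← Real.exp_add]
          congr 1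
          push_cast
          ring
  · intro σ M m j z R hM hMm hz
    have hR : 0 ≤ R := (norm_nonneg _).trans hz
    have h2j : (0 : ℝ) < 2 ^ j := by positivity
    have h2j1 : (1 : ℝ) ≤ 2 ^ j := one_le_pow₀ (by norm_num)
    have hMm' : (M : ℝ) ≤ m := by exact_mod_cast hMm
    unfold fac
    -- first factor
    have h1 : ‖(1 + σ * z / M : ℂ) ^ M - 1‖ ≤ Real.exp (R * (m / 2 ^ j)) - 1 := by
      have h0 : ‖(1 + σ * z / M : ℂ) - 1‖ ≤ |σ| * ‖z‖ / M := by
        rw [add_sub_cancel_left, norm_div, norm_mul, Complex.norm_real, Complex.norm_natCast,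
          Real.norm_eq_abs]
      have h := f68_pow_sub_one_le (1 + σ * z / M : ℂ) M _ h0
      refine h.trans ?_
      have h2 : (M : ℝ) * (|σ| * ‖z‖ / M) ≤ R * (m / 2 ^ j) := by
        rcases Nat.eq_zero_or_pos M with h0 | hpos
        · subst h0
          simp
          positivity
        · have hM0 : (0 : ℝ) < M := by exact_mod_cast hpos
          have e : (M : ℝ) * (|σ| * ‖z‖ / M) = |σ| * ‖z‖ := by field_simp
          rw [e]
          have h3 : |σ| ≤ m / 2 ^ j := by
            rw [le_div_iff₀ h2j]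
            have : 2 ^ (j + 1) * |σ| = 2 * (|σ| * 2 ^ j) := by ring
            nlinarith [mul_nonneg (abs_nonneg σ) h2j.le]
          calc |σ| * ‖z‖ ≤ (m / 2 ^ j) * R :=
                mul_le_mul h3 hz (norm_nonneg _) (by positivity)
            _ = R * (m / 2 ^ j) := by ring
      have := Real.exp_le_exp.2 h2
      linarith
    have h2 : ‖csinc (5 * z / 2 ^ j) ^ m - 1‖ ≤
        Real.exp (5 * R * Real.exp (5 * R) * (m / 2 ^ j)) - 1 := by
      have hn : ‖(5 * z / 2 ^ j : ℂ)‖ = 5 * ‖z‖ / 2 ^ j := by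
        rw [norm_div, norm_mul, norm_pow]
        simp
      have hn1 : 5 * ‖z‖ / 2 ^ j ≤ 5 * R / 2 ^ j :=
        div_le_div_of_nonneg_right (by linarith) h2j.le
      have hn2 : 5 * ‖z‖ / 2 ^ j ≤ 5 * R := by
        refine hn1.trans (div_le_self (by linarith) h2j1)
      have h0 : ‖csinc (5 * z / 2 ^ j) - 1‖ ≤ 5 * R / 2 ^ j * Real.exp (5 * R) := by
        have h := f68_csinc_sub_one_le (5 * z / 2 ^ j)
        rw [hn] at h
        refine h.trans ?_
        exact mul_le_mul hn1 (Real.exp_le_exp.2 hn2) (Real.exp_pos _).le (by positivity)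
      have h := f68_pow_sub_one_le (csinc (5 * z / 2 ^ j)) m _ h0
      convert h using 3
      ring
    have h3 := f68_mul_sub_one_le _ _ _ _ h1 h2
    rw [← Real.exp_add] at h3
    convert h3 using 3
    ring

end Pool.Agent.Bishop
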